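import Mathlib
import Pool.Agent.H458.AR.Cmb

/-!
# Project AR: the coranks of the principal submatrices take all the values up to the maximum
-/

set_option autoImplicit false

open scoped Classical

namespace Pool.Agent.H349.AR458

open Pool.Agent.H458.AR

variable {V : Type} [Fintype V]

/-- the kernel of the principal submatrix as a subspace -/
noncomputable def KS (A : V → V → ZMod 2) (Y : Finset V) : Submodule (ZMod 2) (V → ZMod 2) where
  carrier := Ker A Y
  add_mem' := by
    rintro a b ⟨h1, h2⟩ ⟨h3, h4⟩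
    refine ⟨fun i hi => ?_, fun i hi => ?_⟩
    · rw [Pi.add_apply, h1 i hi, h3 i hi, add_zero]
    · simp only [Pi.add_apply, mul_add, Finset.sum_add_distrib]
      rw [h2 i hi, h4 i hi, add_zero]
  zero_mem' := ⟨fun _ _ => rfl, fun i _ => by simp⟩
  smul_mem' := by
    rintro c a ⟨h1, h2⟩
    refine ⟨fun i hi => ?_, fun i hi => ?_⟩
    · rw [Pi.smul_apply, h1 i hi, smul_zero]
    · have : ∑ j, A i j * (c • a) j = c * ∑ j, A i j * a j := by
        rw [Finset.mul_sum]
        refine Finset.sum_congr rfl fun j _ => ?_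
        rw [Pi.smul_apply, smul_eq_mul]
        ring
      rw [this, h2 i hi, mul_zero]

/-- the corank -/
noncomputable def cr (A : V → V → ZMod 2) (Y : Finset V) : ℕ := Module.finrank (ZMod 2) (KS A Y)

theorem card_ker (A : V → V → ZMod 2) (Y : Finset V) : Nat.card (Ker A Y) = 2 ^ cr A Y := by
  have h := Module.natCard_eq_pow_finrank (K := ZMod 2) (V := KS A Y)
  rw [Nat.card_zmod] at h
  exact h

theorem cr_empty (A : V → V → ZMod 2) : cr A ∅ = 0 := by
  unfold cr
  have : KS A ∅ = ⊥ := by
    rw [Submodule.eq_bot_iff]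
    intro v hv
    funext i
    exact hv.1 i (Finset.notMem_empty i)
  rw [this]
  exact finrank_bot _ _

theorem cr_insert (A : V → V → ZMod 2) (Y : Finset V) (i : V) :
    cr A (insert i Y) ≤ cr A Y + 1 := by
  unfold cr
  let φ : KS A (insert i Y) →ₗ[ZMod 2] ZMod 2 :=
    (LinearMap.proj i).comp (KS A (insert i Y)).subtype
  have h1 := φ.finrank_range_add_finrank_ker
  have h2 : Module.finrank (ZMod 2) (LinearMap.range φ) ≤ 1 := by
    have := (LinearMap.range φ).finrank_le
    rwa [Module.finrank_self] at this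
  let ψ : LinearMap.ker φ →ₗ[ZMod 2] KS A Y :=
    LinearMap.codRestrict (KS A Y) ((KS A (insert i Y)).subtype.comp (LinearMap.ker φ).subtype) (by
      rintro ⟨⟨v, hv⟩, hz⟩
      have hz' : v i = 0 := hz
      refine ⟨fun j hj => ?_, fun j hj => hv.2 j (Finset.mem_insert_of_mem hj)⟩
      change v j = 0
      by_cases hji : j = i
      · rw [hji]; exact hz'
      · exact hv.1 j (by
          rw [Finset.mem_insert]
          rintro (h | h)
          · exact hji h
          · exact hj h))
  have h3 : Module.finrank (ZMod 2) (LinearMap.ker φ) ≤ Module.finrank (ZMod 2) (KS A Y) := by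
    refine LinearMap.finrank_le_finrank_of_injective (f := ψ) ?_
    rintro ⟨⟨v, hv⟩, hz⟩ ⟨⟨w, hw⟩, hz'⟩ h
    have h' : v = w := congrArg Subtype.val h
    subst h'
    rfl
  omega

theorem cr_all (A : V → V → ZMod 2) (Y : Finset V) : ∀ j ≤ cr A Y, ∃ Y', cr A Y' = j := by
  refine Finset.induction_on Y ?_ ?_
  · intro j hj
    rw [cr_empty] at hj
    exact ⟨∅, by rw [cr_empty]; omega⟩
  · intro i Y _ ih j hj
    have := cr_insert A Y i
    by_cases h : j ≤ cr A Y
    · exact ih j h
    · exact ⟨insert i Y, by omega⟩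

theorem stp : Pool.Agent.H458.AR.S_STP := by
  intro V _ A _ _ r Y hY j hj
  rw [card_ker] at hY
  have hr : r ≤ cr A Y := (Nat.pow_le_pow_iff_right (by norm_num)).1 hY
  obtain ⟨Y', h⟩ := cr_all A Y j (hj.trans hr)
  exact ⟨Y', by rw [card_ker, h]⟩

end Pool.Agent.H349.AR458
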